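import Pool.Agent.Lib.RIPPhase.Sens

/-!
# RIP matrices have sensitive columns (MP_e0e10a_lc, Q1)

Label the `2^s` rows of a complex matrix in any way by `{0,1}^s`. If it has the `m`-RIP and `m` of
its columns have average sensitivity at most `I`, then `2^u m (1 - uI/s) ≤ 4 · 2^s` for all `u ≤ s`.
-/

set_option autoImplicit false

namespace Pool.Agent.Results.MP_e0e10a_lc.HighSensitivity

open RIPPhase

/-- Let a complex matrix `A` with `2^s` rows, labelled by `{0,1}^s`, have the `m`-RIP, and let `S` be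
a set of `m` columns `f` with `(1/4) ∑_i ∑_y |f(y) - f(y^i)|² ≤ I ∑_y |f(y)|²`, where `y^i` is `y`
with the bit `i` flipped. Then `2^u m (1 - uI/s) ≤ 4 · 2^s` for every `0 ≤ u ≤ s`. -/
theorem result {s d m u : ℕ} (A : (Fin s → Bool) → Fin d → ℂ) (hA : RIP m A) (hu : u ≤ s) (I : ℝ)
    (S : Finset (Fin d)) (hS : S.card = m)
    (hI : ∀ a ∈ S, 1 / 4 * ∑ i, ∑ y : Fin s → Bool, ‖A y a - A (Function.update y i (!y i)) a‖ ^ 2 ≤
      I * ∑ y, ‖A y a‖ ^ 2) :
    (2 : ℝ) ^ u * m * (1 - u * I / s) ≤ 4 * 2 ^ s := by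
  refine high_sensitivity hA hu I S hS ?_
  intro a ha
  have h : ∀ (i : Fin s) (y : Fin s → Bool), fl {i} y = Function.update y i (!y i) := by
    intro i y
    funext j
    by_cases hj : j = i
    · subst hj; simp [fl]
    · simp [fl, hj]
  simp only [h]
  exact hI a ha

end Pool.Agent.Results.MP_e0e10a_lc.HighSensitivity
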