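import Mathlib

set_option autoImplicit false

namespace Pool.Agent.Results.MP_e0e10a_lc.PhasePatterns

open Finset

/-- `A` has the `m`-RIP: for some scaling factor `s > 0` every vector `x` with at most `m` nonzero
coordinates satisfies `‖x‖ ≤ s ‖A x‖ ≤ 2 ‖x‖` (Euclidean norms, written as sums of squares). -/
def RIP {k d : ℕ} (m : ℕ) (A : Matrix (Fin k) (Fin d) ℂ) : Prop :=
  ∃ s : ℝ, 0 < s ∧ ∀ x : Fin d → ℂ, (univ.filter (fun j => x j ≠ 0)).card ≤ m →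
    ∑ j, ‖x j‖ ^ 2 ≤ s ^ 2 * ∑ i, ‖∑ j, A i j * x j‖ ^ 2 ∧
    s ^ 2 * ∑ i, ‖∑ j, A i j * x j‖ ^ 2 ≤ 2 ^ 2 * ∑ j, ‖x j‖ ^ 2

/-- the same with scaling factor one -/
def RIP1 {k d : ℕ} (m : ℕ) (A : Matrix (Fin k) (Fin d) ℂ) : Prop :=
  ∀ x : Fin d → ℂ, (univ.filter (fun j => x j ≠ 0)).card ≤ m →
    ∑ j, ‖x j‖ ^ 2 ≤ ∑ i, ‖∑ j, A i j * x j‖ ^ 2 ∧
    ∑ i, ‖∑ j, A i j * x j‖ ^ 2 ≤ 4 * ∑ j, ‖x j‖ ^ 2

lemma bessel {k d m : ℕ} {A : Matrix (Fin k) (Fin d) ℂ} (h : RIP1 m A) (v : Fin k → ℂ)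
    (S : Finset (Fin d)) (hS : S.card ≤ m) :
    ∑ j ∈ S, ‖∑ i, v i * A i j‖ ^ 2 ≤ 4 * ∑ i, ‖v i‖ ^ 2 := by
  classical
  set c : Fin d → ℂ := fun j => ∑ i, v i * A i j with hc
  set x : Fin d → ℂ := fun j => if j ∈ S then (starRingEnd ℂ) (c j) else 0 with hx
  have hsupp : (univ.filter (fun j => x j ≠ 0)).card ≤ m := by
    refine le_trans (card_le_card ?_) hS
    intro j hj
    rw [mem_filter] at hj
    by_contra hjS
    exact hj.2 (by simp [hx, hjS])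
  obtain ⟨-, hup⟩ := h x hsupp
  have hxs : ∑ j, ‖x j‖ ^ 2 = ∑ j ∈ S, ‖c j‖ ^ 2 := by
    rw [← sum_filter_add_sum_filter_not univ (fun j => j ∈ S)]
    have h1 : ∑ j ∈ univ.filter (fun j => j ∈ S), ‖x j‖ ^ 2 = ∑ j ∈ S, ‖c j‖ ^ 2 := by
      have : univ.filter (fun j => j ∈ S) = S := by ext j; simp
      rw [this]
      refine sum_congr rfl fun j hj => ?_
      simp [hx, hj]
    have h2 : ∑ j ∈ univ.filter (fun j => ¬ j ∈ S), ‖x j‖ ^ 2 = 0 := by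
      refine sum_eq_zero fun j hj => ?_
      rw [mem_filter] at hj
      simp [hx, hj.2]
    rw [h1, h2, add_zero]
  set Q : ℝ := ∑ j ∈ S, ‖c j‖ ^ 2 with hQ
  have hQ0 : 0 ≤ Q := sum_nonneg fun j _ => by positivity
  have hid : (Q : ℂ) = ∑ i, v i * ∑ j, A i j * x j := by
    have e1 : ∑ i, v i * ∑ j, A i j * x j = ∑ j, c j * x j := by
      simp_rw [mul_sum]
      rw [sum_comm]
      refine sum_congr rfl fun j _ => ?_
      rw [hc]
      simp only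
      rw [sum_mul]
      refine sum_congr rfl fun i _ => by ring
    rw [e1]
    have e2 : ∑ j, c j * x j = ∑ j ∈ S, c j * (starRingEnd ℂ) (c j) := by
      rw [← sum_filter_add_sum_filter_not univ (fun j => j ∈ S)]
      have h1 : ∑ j ∈ univ.filter (fun j => j ∈ S), c j * x j
          = ∑ j ∈ S, c j * (starRingEnd ℂ) (c j) := by
        have : univ.filter (fun j => j ∈ S) = S := by ext j; simp
        rw [this]
        refine sum_congr rfl fun j hj => ?_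
        simp [hx, hj]
      have h2 : ∑ j ∈ univ.filter (fun j => ¬ j ∈ S), c j * x j = 0 := by
        refine sum_eq_zero fun j hj => ?_
        rw [mem_filter] at hj
        simp [hx, hj.2]
      rw [h1, h2, add_zero]
    rw [e2, hQ]
    push_cast
    refine sum_congr rfl fun j _ => ?_
    rw [Complex.mul_conj, Complex.normSq_eq_norm_sq]
    push_cast
    rfl
  have hle : Q ≤ ∑ i, ‖v i‖ * ‖∑ j, A i j * x j‖ := by
    have e0 : Q = ‖(Q : ℂ)‖ := by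
      rw [Complex.norm_real, Real.norm_of_nonneg hQ0]
    rw [e0, hid]
    refine (norm_sum_le _ _).trans (le_of_eq ?_)
    refine sum_congr rfl fun i _ => norm_mul _ _
  have hcs : (∑ i, ‖v i‖ * ‖∑ j, A i j * x j‖) ^ 2
      ≤ (∑ i, ‖v i‖ ^ 2) * ∑ i, ‖∑ j, A i j * x j‖ ^ 2 := sum_mul_sq_le_sq_mul_sq _ _ _
  rw [hxs] at hup
  have hV : 0 ≤ ∑ i, ‖v i‖ ^ 2 := sum_nonneg fun i _ => by positivity
  have hQ2 : Q * Q ≤ (4 * ∑ i, ‖v i‖ ^ 2) * Q := by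
    have h1 : Q ^ 2 ≤ (∑ i, ‖v i‖ * ‖∑ j, A i j * x j‖) ^ 2 := pow_le_pow_left₀ hQ0 hle 2
    have h2 : (∑ i, ‖v i‖ ^ 2) * ∑ i, ‖∑ j, A i j * x j‖ ^ 2 ≤ (∑ i, ‖v i‖ ^ 2) * (4 * Q) :=
      mul_le_mul_of_nonneg_left hup hV
    nlinarith
  rcases eq_or_lt_of_le hQ0 with h0 | h0
  · rw [← h0]; positivity
  · exact le_of_mul_le_mul_right hQ2 h0

lemma row {k d m : ℕ} {A : Matrix (Fin k) (Fin d) ℂ} (h : RIP1 m A) (i : Fin k)
    (S : Finset (Fin d)) (hS : S.card ≤ m) : ∑ j ∈ S, ‖A i j‖ ^ 2 ≤ 4 := by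
  classical
  have h1 := bessel h (Pi.single i 1) S hS
  have e1 : ∑ i', ‖(Pi.single i (1 : ℂ) : Fin k → ℂ) i'‖ ^ 2 = 1 := by
    rw [sum_eq_single i]
    · simp
    · intro b _ hb
      simp [hb]
    · simp
  have e2 : ∀ j, ∑ i', (Pi.single i (1 : ℂ) : Fin k → ℂ) i' * A i' j = A i j := by
    intro j
    rw [sum_eq_single i]
    · simp
    · intro b _ hb
      simp [hb]
    · simp
  simp_rw [e2] at h1
  rw [e1] at h1
  linarith

lemma column {k d m : ℕ} {A : Matrix (Fin k) (Fin d) ℂ} (hm : 1 ≤ m) (h : RIP1 m A) (j : Fin d) :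
    1 ≤ ∑ i, ‖A i j‖ ^ 2 := by
  classical
  have hs : (univ.filter (fun j' => (Pi.single j (1 : ℂ) : Fin d → ℂ) j' ≠ 0)).card ≤ m := by
    refine le_trans ?_ hm
    rw [card_le_one]
    intro a ha b hb
    rw [mem_filter] at ha hb
    have : ∀ a, (Pi.single j (1 : ℂ) : Fin d → ℂ) a ≠ 0 → a = j := by
      intro a ha
      by_contra hne
      exact ha (by simp [hne])
    rw [this a ha.2, this b hb.2]
  have h1 := (h (Pi.single j 1) hs).1
  have e1 : ∑ j', ‖(Pi.single j (1 : ℂ) : Fin d → ℂ) j'‖ ^ 2 = 1 := by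
    rw [sum_eq_single j]
    · simp
    · intro b _ hb
      simp [hb]
    · simp
  have e2 : ∀ i, ∑ j', A i j' * (Pi.single j (1 : ℂ) : Fin d → ℂ) j' = A i j := by
    intro i
    rw [sum_eq_single j]
    · simp
    · intro b _ hb
      simp [hb]
    · simp
  simp_rw [e2] at h1
  rw [e1] at h1
  exact h1

/-- all but at most `8 k` columns have large `ℓ¹`-norm -/
lemma exists_bad {k d m : ℕ} {A : Matrix (Fin k) (Fin d) ℂ} (hm : 1 ≤ m) (h : RIP1 m A) :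
    ∃ bad : Finset (Fin d), bad.card ≤ 8 * k ∧
      ∀ j, j ∉ bad → Real.sqrt m / 4 ≤ ∑ i, ‖A i j‖ := by
  classical
  have hm0 : (0 : ℝ) < m := by exact_mod_cast hm
  have hsq : 0 < Real.sqrt m := Real.sqrt_pos.2 hm0
  have hsqm : Real.sqrt m * Real.sqrt m = m := Real.mul_self_sqrt hm0.le
  set f : Fin k → Fin d → ℝ := fun i j => if 4 / (m : ℝ) < ‖A i j‖ ^ 2 then ‖A i j‖ ^ 2 else 0
    with hf
  have hf0 : ∀ i j, 0 ≤ f i j := by
    intro i j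
    simp only [hf]
    split_ifs
    · positivity
    · exact le_refl _
  have hrow : ∀ i, ∑ j, f i j ≤ 4 := by
    intro i
    set B : Finset (Fin d) := univ.filter (fun j => 4 / (m : ℝ) < ‖A i j‖ ^ 2) with hB
    have hBc : B.card ≤ m := by
      by_contra hcon
      push Not at hcon
      obtain ⟨S, hSB, hSc⟩ := exists_subset_card_eq hcon.le
      have h1 := row h i S hSc.le
      have h2 : ∑ j ∈ S, (4 / (m : ℝ)) < ∑ j ∈ S, ‖A i j‖ ^ 2 := by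
        refine sum_lt_sum_of_nonempty ?_ ?_
        · rw [← card_pos, hSc]; exact hm
        · intro j hj
          have := hSB hj
          rw [hB, mem_filter] at this
          exact this.2
      rw [sum_const, hSc, nsmul_eq_mul] at h2
      have h3 : (m : ℝ) * (4 / m) = 4 := by field_simp
      linarith
    have h1 := row h i B hBc
    have e : ∑ j, f i j = ∑ j ∈ B, ‖A i j‖ ^ 2 := by
      rw [hB, sum_filter]
    rw [e]
    exact h1
  refine ⟨univ.filter (fun j => 1 / 2 ≤ ∑ i, f i j), ?_, ?_⟩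
  · have h1 : ∑ j ∈ univ.filter (fun j => (1 : ℝ) / 2 ≤ ∑ i, f i j), (1 / 2 : ℝ)
        ≤ ∑ j ∈ univ.filter (fun j => (1 : ℝ) / 2 ≤ ∑ i, f i j), ∑ i, f i j := by
      refine sum_le_sum fun j hj => ?_
      rw [mem_filter] at hj
      exact hj.2
    have h2 : ∑ j ∈ univ.filter (fun j => (1 : ℝ) / 2 ≤ ∑ i, f i j), ∑ i, f i j
        ≤ ∑ j, ∑ i, f i j :=
      sum_le_sum_of_subset_of_nonneg (filter_subset _ _)
        fun j _ _ => sum_nonneg fun i _ => hf0 i j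
    have h3 : ∑ j, ∑ i, f i j ≤ 4 * k := by
      rw [sum_comm]
      calc ∑ i, ∑ j, f i j ≤ ∑ _i : Fin k, (4 : ℝ) := sum_le_sum fun i _ => hrow i
        _ = 4 * k := by rw [sum_const, card_univ, Fintype.card_fin, nsmul_eq_mul]; ring
    rw [sum_const, nsmul_eq_mul] at h1
    have h4 : ((univ.filter (fun j => (1 : ℝ) / 2 ≤ ∑ i, f i j)).card : ℝ) ≤ 8 * k := by
      linarith
    exact_mod_cast h4
  · intro j hj
    rw [mem_filter, not_and] at hj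
    have hj1 := hj (mem_univ _)
    push Not at hj1
    have hcol := column hm h j
    have h1 : ∀ i, ‖A i j‖ ^ 2 ≤ f i j + 2 / Real.sqrt m * ‖A i j‖ := by
      intro i
      simp only [hf]
      split_ifs with hbig
      · have : 0 ≤ 2 / Real.sqrt m * ‖A i j‖ := by positivity
        linarith
      · push Not at hbig
        have h2 : ‖A i j‖ ≤ 2 / Real.sqrt m := by
          refine abs_le_of_sq_le_sq' ?_ (by positivity) |>.2
          rw [div_pow, Real.sq_sqrt hm0.le]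
          calc ‖A i j‖ ^ 2 ≤ 4 / m := hbig
            _ = 2 ^ 2 / m := by norm_num
        have h3 := mul_le_mul_of_nonneg_right h2 (norm_nonneg (A i j))
        nlinarith
    have h2 : ∑ i, ‖A i j‖ ^ 2 ≤ ∑ i, f i j + 2 / Real.sqrt m * ∑ i, ‖A i j‖ := by
      rw [mul_sum, ← sum_add_distrib]
      exact sum_le_sum fun i _ => h1 i
    have h3 : 1 / 2 ≤ 2 / Real.sqrt m * ∑ i, ‖A i j‖ := by linarith
    have h4 : Real.sqrt m * (1 / 2) ≤ Real.sqrt m * (2 / Real.sqrt m * ∑ i, ‖A i j‖) :=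
      mul_le_mul_of_nonneg_left h3 hsq.le
    have h5 : Real.sqrt m * (2 / Real.sqrt m * ∑ i, ‖A i j‖) = 2 * ∑ i, ‖A i j‖ := by
      field_simp
    rw [h5] at h4
    linarith

/-- dual Bessel inequality for vectors that factor through `U` -/
lemma bessel_factor {k d m p : ℕ} {A : Matrix (Fin k) (Fin d) ℂ} (h : RIP1 m A)
    (U : Matrix (Fin k) (Fin p) ℂ) (y : Fin d → Fin p → ℂ) (S : Finset (Fin d))
    (hy : ∀ j ∈ S, ∑ l, ‖y j l‖ ^ 2 ≤ 1) (hS : S.card ≤ m) :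
    ∑ j ∈ S, ‖∑ i, (∑ l, U i l * y j l) * A i j‖ ^ 2 ≤ 4 * ∑ i, ∑ l, ‖U i l‖ ^ 2 := by
  have h1 : ∀ j ∈ S, ‖∑ i, (∑ l, U i l * y j l) * A i j‖ ^ 2
      ≤ ∑ l, ‖∑ i, U i l * A i j‖ ^ 2 := by
    intro j hj
    have e : ∑ i, (∑ l, U i l * y j l) * A i j = ∑ l, y j l * ∑ i, U i l * A i j := by
      simp_rw [sum_mul, mul_sum]
      rw [sum_comm]
      refine sum_congr rfl fun l _ => sum_congr rfl fun i _ => by ring
    have h2 : ‖∑ i, (∑ l, U i l * y j l) * A i j‖ ≤ ∑ l, ‖y j l‖ * ‖∑ i, U i l * A i j‖ := by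
      rw [e]
      refine (norm_sum_le _ _).trans (le_of_eq ?_)
      refine sum_congr rfl fun l _ => norm_mul _ _
    have h3 : (∑ l, ‖y j l‖ * ‖∑ i, U i l * A i j‖) ^ 2
        ≤ (∑ l, ‖y j l‖ ^ 2) * ∑ l, ‖∑ i, U i l * A i j‖ ^ 2 := sum_mul_sq_le_sq_mul_sq _ _ _
    have h4 : (∑ l, ‖y j l‖ ^ 2) * ∑ l, ‖∑ i, U i l * A i j‖ ^ 2
        ≤ 1 * ∑ l, ‖∑ i, U i l * A i j‖ ^ 2 :=
      mul_le_mul_of_nonneg_right (hy j hj) (sum_nonneg fun l _ => by positivity)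
    have h5 := pow_le_pow_left₀ (norm_nonneg _) h2 2
    linarith
  calc ∑ j ∈ S, ‖∑ i, (∑ l, U i l * y j l) * A i j‖ ^ 2
      ≤ ∑ j ∈ S, ∑ l, ‖∑ i, U i l * A i j‖ ^ 2 := sum_le_sum h1
    _ = ∑ l, ∑ j ∈ S, ‖∑ i, U i l * A i j‖ ^ 2 := sum_comm
    _ ≤ ∑ l, 4 * ∑ i, ‖U i l‖ ^ 2 := sum_le_sum fun l _ => bessel h (fun i => U i l) S hS
    _ = 4 * ∑ i, ∑ l, ‖U i l‖ ^ 2 := by rw [← mul_sum, sum_comm]

lemma core {k d m p : ℕ} {A : Matrix (Fin k) (Fin d) ℂ} (hm : 1 ≤ m) (h : RIP1 m A)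
    {β : ℝ} (hβ : 0 < β) (U : Matrix (Fin k) (Fin p) ℂ) (J : Finset (Fin d))
    (hJ : ∀ j ∈ J, ∃ y : Fin p → ℂ, ∑ l, ‖y l‖ ^ 2 ≤ 1 ∧
      β * ∑ i, ‖A i j‖ ≤ ‖∑ i, (∑ l, U i l * y l) * A i j‖)
    (hJc : 8 * k + m ≤ J.card) :
    β ^ 2 * (m : ℝ) ^ 2 ≤ 64 * ∑ i, ∑ l, ‖U i l‖ ^ 2 := by
  classical
  obtain ⟨bad, hbc, hbad⟩ := exists_bad hm h
  have h1 : m ≤ (J \ bad).card := by
    have := le_card_sdiff bad J
    omega
  obtain ⟨S, hSJ, hSc⟩ := exists_subset_card_eq h1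
  choose! y hy hyJ using hJ
  have hSJ' : ∀ j ∈ S, j ∈ J ∧ j ∉ bad := fun j hj => mem_sdiff.1 (hSJ hj)
  have h2 := bessel_factor h U y S (fun j hj => hy j (hSJ' j hj).1) hSc.le
  have hm0 : (0 : ℝ) < m := by exact_mod_cast hm
  have h3 : ∀ j ∈ S, β ^ 2 * (m / 16) ≤ ‖∑ i, (∑ l, U i l * y j l) * A i j‖ ^ 2 := by
    intro j hj
    have h4 := hbad j (hSJ' j hj).2
    have h5 := hyJ j (hSJ' j hj).1
    have h6 : β * (Real.sqrt m / 4) ≤ ‖∑ i, (∑ l, U i l * y j l) * A i j‖ :=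
      (mul_le_mul_of_nonneg_left h4 hβ.le).trans h5
    have h7 := pow_le_pow_left₀ (by positivity) h6 2
    have h8 : (β * (Real.sqrt m / 4)) ^ 2 = β ^ 2 * (m / 16) := by
      rw [mul_pow, div_pow, Real.sq_sqrt hm0.le]; norm_num
    rw [h8] at h7
    exact h7
  have h4 := sum_le_sum h3
  rw [sum_const, hSc, nsmul_eq_mul] at h4
  nlinarith

/-- Let `A` be a complex `k × d` matrix with the `m`-RIP, `U 0, …, U (T-1)` complex `k × p`
matrices whose squared Frobenius norms are at most `F`, and `J` a set of at least `T (8 k + m)`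
columns of `A`. Suppose that every column `a` in `J` is correlated in the `ℓ¹`-sense with some
vector `w = U_t y`, `|y| ≤ 1`: `|∑ w(i) a(i)| ≥ β ∑ |a(i)|`. Then `β² m² ≤ 64 F`. -/
theorem result {k d m T p : ℕ} (A : Matrix (Fin k) (Fin d) ℂ) (hA : RIP m A)
    (β F : ℝ) (hβ : 0 < β) (hT : 1 ≤ T) (U : Fin T → Matrix (Fin k) (Fin p) ℂ)
    (hU : ∀ t, ∑ i, ∑ l, ‖U t i l‖ ^ 2 ≤ F) (J : Finset (Fin d))
    (hJ : ∀ j ∈ J, ∃ t, ∃ y : Fin p → ℂ, ∑ l, ‖y l‖ ^ 2 ≤ 1 ∧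
      β * ∑ i, ‖A i j‖ ≤ ‖∑ i, (∑ l, U t i l * y l) * A i j‖)
    (hcard : T * (8 * k + m) ≤ J.card) :
    β ^ 2 * (m : ℝ) ^ 2 ≤ 64 * F := by
  classical
  have hF : 0 ≤ F :=
    le_trans (sum_nonneg fun i _ => sum_nonneg fun l _ => by positivity) (hU ⟨0, hT⟩)
  rcases Nat.eq_zero_or_pos m with rfl | hm
  · simpa using hF
  obtain ⟨s, hs, hA⟩ := hA
  have hRIP : RIP1 m (fun i j => (s : ℂ) * A i j) := by
    intro x hx
    obtain ⟨h1, h2⟩ := hA x hx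
    have e : ∑ i, ‖∑ j, (s : ℂ) * A i j * x j‖ ^ 2 = s ^ 2 * ∑ i, ‖∑ j, A i j * x j‖ ^ 2 := by
      rw [mul_sum]
      refine sum_congr rfl fun i _ => ?_
      simp_rw [mul_assoc]
      rw [← mul_sum, norm_mul, mul_pow, Complex.norm_real, Real.norm_of_nonneg hs.le]
    rw [e]
    refine ⟨h1, h2.trans (le_of_eq ?_)⟩
    norm_num
  have : Nonempty (Fin T) := ⟨⟨0, hT⟩⟩
  choose! c hc using hJ
  -- pigeonhole
  obtain ⟨t, ht⟩ : ∃ t : Fin T, 8 * k + m ≤ (J.filter (fun j => c j = t)).card := by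
    by_contra hcon
    push Not at hcon
    have h1 : J.card = ∑ t : Fin T, (J.filter (fun j => c j = t)).card :=
      card_eq_sum_card_fiberwise fun j _ => mem_univ _
    have h2 : ∑ t : Fin T, (J.filter (fun j => c j = t)).card < ∑ _t : Fin T, (8 * k + m) :=
      sum_lt_sum_of_nonempty ⟨⟨0, hT⟩, mem_univ _⟩ fun t _ => hcon t
    rw [sum_const, card_univ, Fintype.card_fin, smul_eq_mul] at h2
    omega
  refine (core hm hRIP hβ (U t) (J.filter (fun j => c j = t)) ?_ ht).trans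
    (mul_le_mul_of_nonneg_left (hU t) (by norm_num))
  intro j hj
  rw [mem_filter] at hj
  obtain ⟨y, hy, h1⟩ := hc j hj.1
  rw [hj.2] at h1
  refine ⟨y, hy, ?_⟩
  have e1 : ∑ i, ‖(s : ℂ) * A i j‖ = s * ∑ i, ‖A i j‖ := by
    rw [mul_sum]
    refine sum_congr rfl fun i _ => ?_
    rw [norm_mul, Complex.norm_real, Real.norm_of_nonneg hs.le]
  have e2 : ‖∑ i, (∑ l, U t i l * y l) * ((s : ℂ) * A i j)‖
      = s * ‖∑ i, (∑ l, U t i l * y l) * A i j‖ := by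
    have : ∑ i, (∑ l, U t i l * y l) * ((s : ℂ) * A i j)
        = (s : ℂ) * ∑ i, (∑ l, U t i l * y l) * A i j := by
      rw [mul_sum]
      refine sum_congr rfl fun i _ => by ring
    rw [this, norm_mul, Complex.norm_real, Real.norm_of_nonneg hs.le]
  rw [e1, e2]
  nlinarith [mul_le_mul_of_nonneg_left h1 hs.le]

end Pool.Agent.Results.MP_e0e10a_lc.PhasePatterns
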