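import Pool.Agent.Lib.RIPPhase.BoxExact

/-!
# RIP matrices with polynomial phases (MP_e0e10a_lc, Q1)

Rows `y ∈ {0, …, N - 1}^s`, entries `e(Q_a(y))` with arbitrary real polynomials `Q_a` in `s`
variables of total degree at most `D`. If such a matrix has the `m`-RIP and `d` columns, then
`m w^u ≤ 8 N^s` for all `u ≤ s`, `1 ≤ w ≤ N` with `m ∏ 6 B w^|α| ≤ d`.
-/

set_option autoImplicit false

namespace Pool.Agent.Results.MP_e0e10a_lc.PolynomialPhases

open RIPPhase

/-- Suppose that the matrix with rows `y ∈ {0, …, N - 1}^s` and columns `a < d`, entries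
`e(Q_a(y)) = exp(2πi Q_a(y))`, `Q_a` real polynomials in `s` variables of total degree at most `D`,
has the `m`-RIP, `m ≥ 1`. Let `u ≤ s`, `1 ≤ w ≤ N`, and let `Mon u D` be the set of the `B` exponent
vectors of the nonconstant monomials of degree at most `D` in `u` variables. If
`m ∏_{α ∈ Mon u D} 6 B w^|α| ≤ d`, then `m w^u ≤ 8 N^s`. -/
theorem result {s N d m D u w : ℕ} (hm : 1 ≤ m) (hu : u ≤ s) (hw1 : 1 ≤ w) (hw : w ≤ N)
    (Q : Fin d → MvPolynomial (Fin s) ℝ) (hQ : ∀ a, (Q a).totalDegree ≤ D)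
    (hA : RIP m (fun (y : Fin s → Fin N) (a : Fin d) =>
      e (MvPolynomial.eval (fun j => ((y j : ℕ) : ℝ)) (Q a))))
    (hcard : m * ∏ α ∈ Mon u D, (6 * (Mon u D).card * w ^ (∑ j, α j)) ≤ d) :
    m * w ^ u ≤ 8 * N ^ s :=
  box_exact hm hu hw1 hw Q hQ hA hcard

end Pool.Agent.Results.MP_e0e10a_lc.PolynomialPhases
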