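import Mathlib

set_option autoImplicit false

/-!
# MP_e0e10a_lc: the rows of a bounded orthogonal matrix with the restricted isometry property

Let `A` be a complex `k × d` matrix whose rows are pairwise orthogonal with squared norm `d` and
whose entries have modulus at most `B` (`k` rows of `√d` times a unitary matrix with entries of
modulus at most `B/√d`; Fourier matrices: `B = 1`).  If `A` has the `m`-RIP, then for all complex
`c_1, …, c_k` and all real `p ≥ 2` the function `F(y) = ∑ c_i A_{iy}` satisfies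
`∑_y |F(y)|^p ≤ d (4k/m)^((p-2)/2) |c|_2^p + 4k (B |c|_1)^(p-2) |c|_2^2`.
-/

namespace Pool.Agent.Results.MP_e0e10a_lc.RowsLambdaP

open Finset

/-- `A` has the `m`-RIP: for some scaling factor `s > 0` every vector `x` with at most `m` nonzero
coordinates satisfies `‖x‖ ≤ s ‖A x‖ ≤ 2 ‖x‖` (Euclidean norms, written as sums of squares). -/
def RIP {k d : ℕ} (m : ℕ) (A : Matrix (Fin k) (Fin d) ℂ) : Prop :=
  ∃ s : ℝ, 0 < s ∧ ∀ x : Fin d → ℂ, (univ.filter (fun j => x j ≠ 0)).card ≤ m →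
    ∑ j, ‖x j‖ ^ 2 ≤ s ^ 2 * ∑ i, ‖∑ j, A i j * x j‖ ^ 2 ∧
    s ^ 2 * ∑ i, ‖∑ j, A i j * x j‖ ^ 2 ≤ 2 ^ 2 * ∑ j, ‖x j‖ ^ 2

/-- the same with scaling factor one -/
def RIP1 {k d : ℕ} (m : ℕ) (A : Matrix (Fin k) (Fin d) ℂ) : Prop :=
  ∀ x : Fin d → ℂ, (univ.filter (fun j => x j ≠ 0)).card ≤ m →
    ∑ j, ‖x j‖ ^ 2 ≤ ∑ i, ‖∑ j, A i j * x j‖ ^ 2 ∧
    ∑ i, ‖∑ j, A i j * x j‖ ^ 2 ≤ 4 * ∑ j, ‖x j‖ ^ 2

/-- the dual Bessel inequality (as in the hand-in `PhasePatterns`) -/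
lemma bessel {k d m : ℕ} {A : Matrix (Fin k) (Fin d) ℂ} (h : RIP1 m A) (v : Fin k → ℂ)
    (S : Finset (Fin d)) (hS : S.card ≤ m) :
    ∑ j ∈ S, ‖∑ i, v i * A i j‖ ^ 2 ≤ 4 * ∑ i, ‖v i‖ ^ 2 := by
  classical
  set c : Fin d → ℂ := fun j => ∑ i, v i * A i j with hc
  set x : Fin d → ℂ := fun j => if j ∈ S then (starRingEnd ℂ) (c j) else 0 with hx
  have hsupp : (univ.filter (fun j => x j ≠ 0)).card ≤ m := by
    refine le_trans (card_le_card ?_) hS
    intro j hj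
    rw [mem_filter] at hj
    by_contra hjS
    exact hj.2 (by simp [hx, hjS])
  obtain ⟨-, hup⟩ := h x hsupp
  have hxs : ∑ j, ‖x j‖ ^ 2 = ∑ j ∈ S, ‖c j‖ ^ 2 := by
    rw [← sum_filter_add_sum_filter_not univ (fun j => j ∈ S)]
    have h1 : ∑ j ∈ univ.filter (fun j => j ∈ S), ‖x j‖ ^ 2 = ∑ j ∈ S, ‖c j‖ ^ 2 := by
      have : univ.filter (fun j => j ∈ S) = S := by ext j; simp
      rw [this]
      refine sum_congr rfl fun j hj => ?_
      simp [hx, hj]
    have h2 : ∑ j ∈ univ.filter (fun j => ¬ j ∈ S), ‖x j‖ ^ 2 = 0 := by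
      refine sum_eq_zero fun j hj => ?_
      rw [mem_filter] at hj
      simp [hx, hj.2]
    rw [h1, h2, add_zero]
  set Q : ℝ := ∑ j ∈ S, ‖c j‖ ^ 2 with hQ
  have hQ0 : 0 ≤ Q := sum_nonneg fun j _ => by positivity
  have hid : (Q : ℂ) = ∑ i, v i * ∑ j, A i j * x j := by
    have e1 : ∑ i, v i * ∑ j, A i j * x j = ∑ j, c j * x j := by
      simp_rw [mul_sum]
      rw [sum_comm]
      refine sum_congr rfl fun j _ => ?_
      rw [hc]
      simp only
      rw [sum_mul]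
      refine sum_congr rfl fun i _ => by ring
    rw [e1]
    have e2 : ∑ j, c j * x j = ∑ j ∈ S, c j * (starRingEnd ℂ) (c j) := by
      rw [← sum_filter_add_sum_filter_not univ (fun j => j ∈ S)]
      have h1 : ∑ j ∈ univ.filter (fun j => j ∈ S), c j * x j
          = ∑ j ∈ S, c j * (starRingEnd ℂ) (c j) := by
        have : univ.filter (fun j => j ∈ S) = S := by ext j; simp
        rw [this]
        refine sum_congr rfl fun j hj => ?_
        simp [hx, hj]
      have h2 : ∑ j ∈ univ.filter (fun j => ¬ j ∈ S), c j * x j = 0 := by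
        refine sum_eq_zero fun j hj => ?_
        rw [mem_filter] at hj
        simp [hx, hj.2]
      rw [h1, h2, add_zero]
    rw [e2, hQ]
    push_cast
    refine sum_congr rfl fun j _ => ?_
    rw [Complex.mul_conj, Complex.normSq_eq_norm_sq]
    push_cast
    rfl
  have hle : Q ≤ ∑ i, ‖v i‖ * ‖∑ j, A i j * x j‖ := by
    have e0 : Q = ‖(Q : ℂ)‖ := by
      rw [Complex.norm_real, Real.norm_of_nonneg hQ0]
    rw [e0, hid]
    refine (norm_sum_le _ _).trans (le_of_eq ?_)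
    refine sum_congr rfl fun i _ => norm_mul _ _
  have hcs : (∑ i, ‖v i‖ * ‖∑ j, A i j * x j‖) ^ 2
      ≤ (∑ i, ‖v i‖ ^ 2) * ∑ i, ‖∑ j, A i j * x j‖ ^ 2 := sum_mul_sq_le_sq_mul_sq _ _ _
  rw [hxs] at hup
  have hV : 0 ≤ ∑ i, ‖v i‖ ^ 2 := sum_nonneg fun i _ => by positivity
  have hQ2 : Q * Q ≤ (4 * ∑ i, ‖v i‖ ^ 2) * Q := by
    have h1 : Q ^ 2 ≤ (∑ i, ‖v i‖ * ‖∑ j, A i j * x j‖) ^ 2 := pow_le_pow_left₀ hQ0 hle 2
    have h2 : (∑ i, ‖v i‖ ^ 2) * ∑ i, ‖∑ j, A i j * x j‖ ^ 2 ≤ (∑ i, ‖v i‖ ^ 2) * (4 * Q) :=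
      mul_le_mul_of_nonneg_left hup hV
    nlinarith
  rcases eq_or_lt_of_le hQ0 with h0 | h0
  · rw [← h0]; positivity
  · exact le_of_mul_le_mul_right hQ2 h0

lemma column {k d m : ℕ} {A : Matrix (Fin k) (Fin d) ℂ} (hm : 1 ≤ m) (h : RIP1 m A) (j : Fin d) :
    1 ≤ ∑ i, ‖A i j‖ ^ 2 := by
  classical
  have hs : (univ.filter (fun j' => (Pi.single j (1 : ℂ) : Fin d → ℂ) j' ≠ 0)).card ≤ m := by
    refine le_trans ?_ hm
    rw [card_le_one]
    intro a ha b hb
    rw [mem_filter] at ha hb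
    have : ∀ a, (Pi.single j (1 : ℂ) : Fin d → ℂ) a ≠ 0 → a = j := by
      intro a ha
      by_contra hne
      exact ha (by simp [hne])
    rw [this a ha.2, this b hb.2]
  have h1 := (h (Pi.single j 1) hs).1
  have e1 : ∑ j', ‖(Pi.single j (1 : ℂ) : Fin d → ℂ) j'‖ ^ 2 = 1 := by
    rw [sum_eq_single j]
    · simp
    · intro b _ hb
      simp [hb]
    · simp
  have e2 : ∀ i, ∑ j', A i j' * (Pi.single j (1 : ℂ) : Fin d → ℂ) j' = A i j := by
    intro i
    rw [sum_eq_single j]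
    · simp
    · intro b _ hb
      simp [hb]
    · simp
  simp_rw [e2] at h1
  rw [e1] at h1
  exact h1

/-- Parseval for pairwise orthogonal rows of squared norm `d`. -/
lemma parseval {k d : ℕ} {A : Matrix (Fin k) (Fin d) ℂ}
    (horth : ∀ i i', ∑ y, A i y * (starRingEnd ℂ) (A i' y) = if i = i' then (d : ℂ) else 0)
    (c : Fin k → ℂ) :
    ∑ y, ‖∑ i, c i * A i y‖ ^ 2 = d * ∑ i, ‖c i‖ ^ 2 := by
  have key : ((∑ y, ‖∑ i, c i * A i y‖ ^ 2 : ℝ) : ℂ) = ((d * ∑ i, ‖c i‖ ^ 2 : ℝ) : ℂ) := by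
    push_cast
    have e : ∀ y, (‖∑ i, c i * A i y‖ : ℂ) ^ 2
        = ∑ i, ∑ i', c i * (starRingEnd ℂ) (c i') * (A i y * (starRingEnd ℂ) (A i' y)) := by
      intro y
      rw [← Complex.ofReal_pow, ← Complex.normSq_eq_norm_sq, ← Complex.mul_conj, map_sum,
        sum_mul_sum]
      refine sum_congr rfl fun i _ => sum_congr rfl fun i' _ => ?_
      rw [map_mul]
      ring
    simp_rw [e]
    rw [sum_comm]
    rw [mul_sum]
    refine sum_congr rfl fun i _ => ?_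
    rw [sum_comm]
    simp_rw [← mul_sum, horth]
    simp only [mul_ite, mul_zero, sum_ite_eq, mem_univ, if_true]
    rw [Complex.mul_conj, Complex.normSq_eq_norm_sq]
    push_cast
    ring
  exact_mod_cast key

lemma rpow_split {a : ℝ} (ha : 0 ≤ a) {p : ℝ} (hp : 2 ≤ p) : a ^ p = a ^ (p - 2) * a ^ 2 := by
  rcases eq_or_lt_of_le ha with h | h
  · rw [← h, Real.zero_rpow (by linarith)]
    simp
  · rw [← Real.rpow_natCast a 2, ← Real.rpow_add h]
    norm_num

lemma rpow_split_half {a : ℝ} (ha : 0 ≤ a) {p : ℝ} (hp : 2 ≤ p) :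
    a ^ (p / 2) = a ^ ((p - 2) / 2) * a := by
  rcases eq_or_lt_of_le ha with h | h
  · rw [← h, Real.zero_rpow (by linarith)]
    simp
  · nth_rewrite 3 [← Real.rpow_one a]
    rw [← Real.rpow_add h]
    congr 1
    ring

/-- If a `k × d` matrix with pairwise orthogonal rows of squared norm `d` and entries of modulus
at most `B` has the `m`-RIP (`1 ≤ m ≤ d`), its rows satisfy the stated `Λ(p)` inequality. -/
theorem result {k d m : ℕ} (hm : 1 ≤ m) (hmd : m ≤ d) (A : Matrix (Fin k) (Fin d) ℂ) (B : ℝ)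
    (horth : ∀ i i', ∑ y, A i y * (starRingEnd ℂ) (A i' y) = if i = i' then (d : ℂ) else 0)
    (hB : ∀ i y, ‖A i y‖ ≤ B) (hRIP : RIP m A) (c : Fin k → ℂ) (p : ℝ) (hp : 2 ≤ p) :
    ∑ y, ‖∑ i, c i * A i y‖ ^ p
      ≤ d * (4 * k / m) ^ ((p - 2) / 2) * (∑ i, ‖c i‖ ^ 2) ^ (p / 2)
        + 4 * k * (B * ∑ i, ‖c i‖) ^ (p - 2) * ∑ i, ‖c i‖ ^ 2 := by
  classical
  obtain ⟨s, hs, hR⟩ := hRIP
  have hd : 1 ≤ d := hm.trans hmd
  have hmR : (0 : ℝ) < m := by exact_mod_cast hm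
  have hdR : (0 : ℝ) < d := by exact_mod_cast hd
  have hsC : ‖(s : ℂ)‖ = s := by rw [Complex.norm_real, Real.norm_of_nonneg hs.le]
  -- the rescaled matrix
  set A' : Matrix (Fin k) (Fin d) ℂ := fun i j => (s : ℂ) * A i j with hA'
  have h1 : RIP1 m A' := by
    intro x hx
    obtain ⟨h1, h2⟩ := hR x hx
    have e : ∀ i, ‖∑ j, A' i j * x j‖ ^ 2 = s ^ 2 * ‖∑ j, A i j * x j‖ ^ 2 := by
      intro i
      have : ∑ j, A' i j * x j = (s : ℂ) * ∑ j, A i j * x j := by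
        rw [mul_sum]
        refine sum_congr rfl fun j _ => ?_
        rw [hA']; ring
      rw [this, norm_mul, hsC]; ring
    simp_rw [e, ← mul_sum]
    refine ⟨h1, ?_⟩
    have : (2 : ℝ) ^ 2 = 4 := by norm_num
    rw [this] at h2
    exact h2
  -- squared norms of the rows
  have hrow : ∀ i, ∑ y, ‖A i y‖ ^ 2 = d := by
    intro i
    have h := horth i i
    rw [if_pos rfl] at h
    have e : ((∑ y, ‖A i y‖ ^ 2 : ℝ) : ℂ) = (d : ℂ) := by
      rw [← h]
      push_cast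
      refine sum_congr rfl fun y _ => ?_
      rw [Complex.mul_conj, Complex.normSq_eq_norm_sq]
      push_cast
      rfl
    exact_mod_cast e
  -- `1 ≤ s² k`
  have hsk : 1 ≤ s ^ 2 * k := by
    have hcol : ∀ y, (1 : ℝ) ≤ ∑ i, s ^ 2 * ‖A i y‖ ^ 2 := by
      intro y
      refine (column hm h1 y).trans (le_of_eq ?_)
      refine sum_congr rfl fun i _ => ?_
      rw [hA']
      simp only
      rw [norm_mul, hsC]; ring
    have hsum : ∑ _y : Fin d, (1 : ℝ) ≤ ∑ y, ∑ i, s ^ 2 * ‖A i y‖ ^ 2 :=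
      sum_le_sum fun y _ => hcol y
    rw [sum_comm] at hsum
    simp_rw [← mul_sum, hrow] at hsum
    simp only [sum_const, card_univ, Fintype.card_fin, nsmul_eq_mul, mul_one] at hsum
    have : (d : ℝ) * 1 ≤ d * (s ^ 2 * k) := by nlinarith
    exact le_of_mul_le_mul_left this hdR
  set N2 : ℝ := ∑ i, ‖c i‖ ^ 2 with hN2
  set N1 : ℝ := ∑ i, ‖c i‖ with hN1
  have hN20 : 0 ≤ N2 := sum_nonneg fun i _ => by positivity
  have hN10 : 0 ≤ N1 := sum_nonneg fun i _ => norm_nonneg _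
  have hk0 : (0 : ℝ) ≤ k := Nat.cast_nonneg k
  set a : Fin d → ℝ := fun y => ‖∑ i, c i * A i y‖ with ha
  have ha0 : ∀ y, 0 ≤ a y := fun y => norm_nonneg _
  -- dual Bessel
  have hbes : ∀ T : Finset (Fin d), T.card ≤ m → ∑ y ∈ T, a y ^ 2 ≤ 4 * k * N2 := by
    intro T hT
    have h := bessel h1 c T hT
    have e : ∀ y, ‖∑ i, c i * A' i y‖ ^ 2 = s ^ 2 * a y ^ 2 := by
      intro y
      have : ∑ i, c i * A' i y = (s : ℂ) * ∑ i, c i * A i y := by
        rw [mul_sum]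
        refine sum_congr rfl fun i _ => ?_
        rw [hA']; ring
      rw [this, norm_mul, hsC, ha]; ring
    simp_rw [e, ← mul_sum] at h
    have hT0 : 0 ≤ ∑ y ∈ T, a y ^ 2 := sum_nonneg fun y _ => by positivity
    calc ∑ y ∈ T, a y ^ 2 = 1 * ∑ y ∈ T, a y ^ 2 := by rw [one_mul]
      _ ≤ (s ^ 2 * k) * ∑ y ∈ T, a y ^ 2 := mul_le_mul_of_nonneg_right hsk hT0
      _ = k * (s ^ 2 * ∑ y ∈ T, a y ^ 2) := by ring
      _ ≤ k * (4 * N2) := mul_le_mul_of_nonneg_left h hk0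
      _ = 4 * k * N2 := by ring
  set lam : ℝ := 4 * k * N2 / m with hlam
  have hlam0 : 0 ≤ lam := by positivity
  set T : Finset (Fin d) := univ.filter (fun y => lam < a y ^ 2) with hT
  have hTm : T.card ≤ m := by
    by_contra hcon
    rw [not_le] at hcon
    obtain ⟨T', hT'T, hT'c⟩ := exists_subset_card_eq hcon.le
    have hne : T'.Nonempty := by
      rw [← card_pos, hT'c]; exact hm
    have h2 : ∑ _y ∈ T', lam < ∑ y ∈ T', a y ^ 2 := by
      refine sum_lt_sum_of_nonempty hne fun y hy => ?_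
      have := hT'T hy
      rw [hT, mem_filter] at this
      exact this.2
    have h3 := hbes T' hT'c.le
    rw [sum_const, hT'c, nsmul_eq_mul] at h2
    have h4 : (m : ℝ) * lam = 4 * k * N2 := by
      rw [hlam]; field_simp
    linarith
  -- the sup bound
  have hsup : ∀ y, a y ≤ B * N1 := by
    intro y
    refine (norm_sum_le _ _).trans ?_
    rw [hN1, mul_sum]
    refine sum_le_sum fun i _ => ?_
    rw [norm_mul, mul_comm]
    exact mul_le_mul_of_nonneg_right (hB i y) (norm_nonneg _)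
  have hpar : ∑ y, a y ^ 2 = d * N2 := parseval horth c
  have hp2 : 0 ≤ p - 2 := by linarith
  have hp22 : 0 ≤ (p - 2) / 2 := by linarith
  rw [← sum_filter_add_sum_filter_not univ (fun y => lam < a y ^ 2)]
  have hon : ∑ y ∈ univ.filter (fun y => lam < a y ^ 2), a y ^ p
      ≤ 4 * k * (B * N1) ^ (p - 2) * N2 := by
    have h2 : ∀ y ∈ univ.filter (fun y => lam < a y ^ 2), a y ^ p ≤ (B * N1) ^ (p - 2) * a y ^ 2 := by
      intro y _
      rw [rpow_split (ha0 y) hp]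
      refine mul_le_mul_of_nonneg_right ?_ (by positivity)
      exact Real.rpow_le_rpow (ha0 y) (hsup y) hp2
    refine (sum_le_sum h2).trans ?_
    rw [← mul_sum]
    by_cases hTe : (univ.filter (fun y => lam < a y ^ 2)).Nonempty
    · obtain ⟨y, _⟩ := hTe
      have hBN : 0 ≤ B * N1 := (ha0 y).trans (hsup y)
      have h3 := hbes _ hTm
      calc (B * N1) ^ (p - 2) * ∑ y ∈ univ.filter (fun y => lam < a y ^ 2), a y ^ 2
          ≤ (B * N1) ^ (p - 2) * (4 * k * N2) :=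
            mul_le_mul_of_nonneg_left h3 (Real.rpow_nonneg hBN _)
        _ = 4 * k * (B * N1) ^ (p - 2) * N2 := by ring
    · have hBN : 0 ≤ B * N1 := (ha0 ⟨0, hd⟩).trans (hsup _)
      rw [not_nonempty_iff_eq_empty] at hTe
      rw [hTe, sum_empty, mul_zero]
      have := Real.rpow_nonneg hBN (p - 2)
      positivity
  have hoff : ∑ y ∈ univ.filter (fun y => ¬ lam < a y ^ 2), a y ^ p
      ≤ d * (4 * k / m) ^ ((p - 2) / 2) * N2 ^ (p / 2) := by
    have h2 : ∀ y ∈ univ.filter (fun y => ¬ lam < a y ^ 2),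
        a y ^ p ≤ lam ^ ((p - 2) / 2) * a y ^ 2 := by
      intro y hy
      rw [mem_filter, not_lt] at hy
      rw [rpow_split (ha0 y) hp]
      refine mul_le_mul_of_nonneg_right ?_ (by positivity)
      have e : a y ^ (p - 2) = (a y ^ 2) ^ ((p - 2) / 2) := by
        rw [← Real.rpow_natCast (a y) 2, ← Real.rpow_mul (ha0 y)]
        congr 1
        push_cast
        ring
      rw [e]
      exact Real.rpow_le_rpow (by positivity) hy.2 hp22
    refine (sum_le_sum h2).trans ?_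
    rw [← mul_sum]
    have h3 : ∑ y ∈ univ.filter (fun y => ¬ lam < a y ^ 2), a y ^ 2 ≤ d * N2 := by
      rw [← hpar]
      exact sum_le_sum_of_subset_of_nonneg (filter_subset _ _) fun y _ _ => by positivity
    have h4 : lam ^ ((p - 2) / 2) = (4 * k / m) ^ ((p - 2) / 2) * N2 ^ ((p - 2) / 2) := by
      rw [← Real.mul_rpow (by positivity) hN20]
      congr 1
      rw [hlam]; ring
    calc lam ^ ((p - 2) / 2) * ∑ y ∈ univ.filter (fun y => ¬ lam < a y ^ 2), a y ^ 2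
        ≤ lam ^ ((p - 2) / 2) * (d * N2) :=
          mul_le_mul_of_nonneg_left h3 (Real.rpow_nonneg hlam0 _)
      _ = d * (4 * k / m) ^ ((p - 2) / 2) * (N2 ^ ((p - 2) / 2) * N2) := by rw [h4]; ring
      _ = d * (4 * k / m) ^ ((p - 2) / 2) * N2 ^ (p / 2) := by rw [← rpow_split_half hN20 hp]
  linarith

end Pool.Agent.Results.MP_e0e10a_lc.RowsLambdaP
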